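import Pool.Agent.Helper127.Kauf.Defs
import Pool.Agent.Helper454.Kauf.Exist10

/-!
# Existence of the Kauffman polynomial for the diagrams of `Helper127`

The library `Helper454.Kauf` constructs a function satisfying Kauffman's rules; here it is
transported to the (isomorphic) type of diagrams used with Seifert surfaces.
-/

set_option autoImplicit false

namespace Pool.Agent.Y478.KS

namespace A
export Pool.Agent.Helper127.Kauf (Piece Word width Closed LocalMove RegStep RegIsotopic circle
  KauffmanRules)
end A

namespace B
export Pool.Agent.Helper454.Kauf (Piece Word width Closed LocalMove RegStep RegIsotopic circle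
  KauffmanRules)
end B

/-- the same piece in the other library -/
def conv : A.Piece → B.Piece
  | .birth i => .birth i
  | .death i => .death i
  | .pos i => .pos i
  | .neg i => .neg i

/-- the same diagram in the other library -/
def cw (w : A.Word) : B.Word := w.map conv

theorem cw_append (u v : A.Word) : cw (u ++ v) = cw u ++ cw v := List.map_append

theorem width_conv (p : A.Piece) (n : ℕ) :
    Pool.Agent.Helper454.Kauf.Piece.width (conv p) n = Pool.Agent.Helper127.Kauf.Piece.width p n := by
  cases p <;> rfl

theorem width_cw (w : A.Word) (n : ℕ) : B.width (cw w) n = A.width w n := by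
  induction w generalizing n with
  | nil => rfl
  | cons p w ih =>
    show (Pool.Agent.Helper454.Kauf.Piece.width (conv p) n).bind (B.width (cw w)) =
      (Pool.Agent.Helper127.Kauf.Piece.width p n).bind (A.width w)
    rw [width_conv]
    congr 1
    funext m
    exact ih m

theorem closed_cw (w : A.Word) : B.Closed (cw w) ↔ A.Closed w := by
  unfold Pool.Agent.Helper454.Kauf.Closed Pool.Agent.Helper127.Kauf.Closed
  rw [width_cw]

theorem localMove_cw {l r : A.Word} (h : A.LocalMove l r) : B.LocalMove (cw l) (cw r) := by
  cases h with
  | exchange p q h =>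
    have e : cw [p, q.moved (q.index + p.outs - p.ins)] =
        [conv p, (conv q).moved ((conv q).index + (conv p).outs - (conv p).ins)] := by
      cases p <;> cases q <;> rfl
    rw [e]
    refine Pool.Agent.Helper454.Kauf.LocalMove.exchange (conv p) (conv q) ?_
    cases p <;> cases q <;> exact h
  | zigzag₁ i => exact .zigzag₁ i
  | zigzag₂ i => exact .zigzag₂ i
  | slideBirth₁ i => exact .slideBirth₁ i
  | slideBirth₂ i => exact .slideBirth₂ i
  | slideDeath₁ i => exact .slideDeath₁ i
  | slideDeath₂ i => exact .slideDeath₂ i
  | second₁ i => exact .second₁ i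
  | second₂ i => exact .second₂ i
  | third i => exact .third i

theorem regStep_cw {D E : A.Word} (h : A.RegStep D E) : B.RegStep (cw D) (cw E) := by
  obtain ⟨x, l, r, y, hlr, h1, h2⟩ := h
  rw [cw_append, cw_append, cw_append, cw_append]
  refine Pool.Agent.Helper454.Kauf.RegStep.mk _ _ _ _ (localMove_cw hlr) ?_ ?_
  · rw [← cw_append, ← cw_append]; exact (closed_cw _).2 h1
  · rw [← cw_append, ← cw_append]; exact (closed_cw _).2 h2

theorem regIsotopic_cw {D E : A.Word} (h : A.RegIsotopic D E) :
    B.RegIsotopic (cw D) (cw E) := by
  induction h with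
  | rel _ _ h => exact Relation.EqvGen.rel _ _ (regStep_cw h)
  | refl _ => exact Relation.EqvGen.refl _
  | symm _ _ _ ih => exact Relation.EqvGen.symm _ _ ih
  | trans _ _ _ _ _ ih1 ih2 => exact Relation.EqvGen.trans _ _ _ ih1 ih2

/-- a function satisfying Kauffman's rules -/
noncomputable def Lam (w : A.Word) : Pool.Agent.Helper127.Kauf.Raz :=
  Pool.Agent.Helper454.Kauf.Ex.Lam Pool.Agent.Helper454.Kauf.Raz (cw w)

theorem Lam_rules : A.KauffmanRules Lam := by
  have R := Pool.Agent.Helper454.Kauf.Ex.Lam_rules
  constructor
  · intro D E h
    exact R.regular _ _ (regIsotopic_cw h)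
  · intro x i y h
    have h' := (closed_cw _).2 h
    rw [cw_append, cw_append] at h'
    have := R.birthPos (cw x) i (cw y) h'
    simp only [Lam, cw_append]
    exact this
  · intro x i y h
    have h' := (closed_cw _).2 h
    rw [cw_append, cw_append] at h'
    have := R.birthNeg (cw x) i (cw y) h'
    simp only [Lam, cw_append]
    exact this
  · intro x i y h
    have h' := (closed_cw _).2 h
    rw [cw_append, cw_append] at h'
    have := R.deathPos (cw x) i (cw y) h'
    simp only [Lam, cw_append]
    exact this
  · intro x i y h
    have h' := (closed_cw _).2 h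
    rw [cw_append, cw_append] at h'
    have := R.deathNeg (cw x) i (cw y) h'
    simp only [Lam, cw_append]
    exact this
  · intro x i y h
    have h' := (closed_cw _).2 h
    rw [cw_append, cw_append] at h'
    have := R.skein (cw x) i (cw y) h'
    simp only [Lam, cw_append]
    exact this

theorem Lam_circle : Lam A.circle = 1 := Pool.Agent.Helper454.Kauf.Ex.Lam_circle

end Pool.Agent.Y478.KS
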