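import Pool.Agent.Helper127.Kauf.Final
import Pool.Agent.Y478.KS.Conv

/-!
# Iterated connected sums of the link with the surface `surf`
-/

set_option autoImplicit false

namespace Pool.Agent.Y478.KS

open Pool.Agent.Helper127.Kauf LaurentPolynomial

/-- the surface `surf` without its first and last piece -/
def midS : Strips :=
  [.split 0, .cap 2, .split 2, .back 1, .back 1, .front 0, .twistNeg 3, .merge 2, .split 2,
   .merge 0, .split 0, .twistNeg 1, .twistNeg 0, .back 1, .merge 2, .cup 2, .merge 0]

/-- `n` copies of `midS` -/
def repS : ℕ → Strips
  | 0 => []
  | n + 1 => midS ++ repS n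

/-- the boundary connected sum of `n` copies of the surface `surf` -/
def SN (n : ℕ) : Strips := .cap 0 :: (repS n ++ [.cup 0])

/-- the connected sum of `n` copies of the link, the boundary of the surface `SN n` -/
def LN (n : ℕ) : OWord := boundary (SN n)

theorem SN_one : SN 1 = surf := by decide

/-! ### the surface -/

theorem strips_append (u v : Strips) (n : ℕ) : strips (u ++ v) n = (strips u n).bind (strips v) := by
  induction u generalizing n with
  | nil => simp [strips]
  | cons p u ih =>
    simp only [List.cons_append, strips]
    cases h : p.strips n with
    | none => simp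
    | some m => simp [ih]

theorem strips_mid : strips midS 1 = some 1 := by decide +kernel

theorem strips_rep (n : ℕ) : strips (repS n) 1 = some 1 := by
  induction n with
  | zero => rfl
  | succ n ih => rw [repS, strips_append, strips_mid]; exact ih

theorem isSurface_SN (n : ℕ) : IsSurface (SN n) := by
  show strips (repS n ++ [.cup 0]) 1 = some 0
  rw [strips_append, strips_rep]
  rfl

theorem euler_append (u v : Strips) : euler (u ++ v) = euler u + euler v := by
  simp [euler]

theorem euler_SN (n : ℕ) : euler (SN n) = 1 - 3 * n := by
  have h1 : ∀ n : ℕ, euler (repS n) = -(3 * n) := by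
    intro n
    induction n with
    | zero => rfl
    | succ n ih =>
      rw [repS, euler_append, ih, show euler midS = -3 by decide]
      push_cast
      ring
  have h2 : euler (SN n) = 1 + euler (repS n ++ [.cup 0]) := by
    simp [euler, SN, Band.euler]
  rw [h2, euler_append, h1, show euler [.cup 0] = 0 by decide]
  ring

/-! ### the oriented link -/

theorem boundary_append (u v : Strips) : boundary (u ++ v) = boundary u ++ boundary v := by
  simp [boundary]

/-- the boundary of `midS` -/
def midL : OWord := boundary midS

theorem LN_eq (n : ℕ) : LN n = .birth 0 true :: (boundary (repS n) ++ [.death 0]) := by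
  have : LN n = boundary ([.cap 0] ++ (repS n ++ [.cup 0])) := rfl
  rw [this, boundary_append, boundary_append]
  rfl

theorem boundary_rep_succ (n : ℕ) : boundary (repS (n + 1)) = midL ++ boundary (repS n) :=
  boundary_append _ _

theorem below_append (u v : OWord) (d : List Bool) :
    below (u ++ v) d = (below u d).bind (below v) := by
  induction u generalizing d with
  | nil => simp [below]
  | cons p u ih =>
    simp only [List.cons_append, below]
    cases h : p.below d with
    | none => simp
    | some m => simp [ih]

theorem below_mid : below midL [true, false] = some [true, false] := by decide +kernel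

theorem below_rep (n : ℕ) : below (boundary (repS n)) [true, false] = some [true, false] := by
  induction n with
  | zero => rfl
  | succ n ih => rw [boundary_rep_succ, below_append, below_mid]; exact ih

theorem oclosed_LN (n : ℕ) : OClosed (LN n) := by
  rw [LN_eq]
  show below (boundary (repS n) ++ [.death 0]) [true, false] = some []
  rw [below_append, below_rep]
  rfl

theorem writheFrom_append (u v : OWord) (d d' : List Bool) (h : below u d = some d') :
    writheFrom (u ++ v) d = writheFrom u d + writheFrom v d' := by
  induction u generalizing d with
  | nil =>
    simp only [below, Option.some.injEq] at h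
    subst h
    simp [writheFrom]
  | cons p u ih =>
    simp only [List.cons_append, writheFrom]
    simp only [below] at h
    cases hp : p.below d with
    | none => simp [hp] at h
    | some m =>
      rw [hp] at h
      simp only [Option.getD_some]
      rw [ih m h, add_assoc]

theorem writhe_mid : writheFrom midL [true, false] = 6 := by decide +kernel

theorem writhe_rep (n : ℕ) :
    writheFrom (boundary (repS n) ++ [.death 0]) [true, false] = 6 * n := by
  induction n with
  | zero => rfl
  | succ n ih =>
    rw [boundary_rep_succ, List.append_assoc, writheFrom_append _ _ _ _ below_mid, ih, writhe_mid]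
    push_cast
    ring

theorem writhe_LN (n : ℕ) : writhe (LN n) = 6 * n := by
  rw [LN_eq]
  show 0 + writheFrom (boundary (repS n) ++ [.death 0]) [true, false] = 6 * n
  rw [writhe_rep, zero_add]

/-! ### the value -/

theorem forget_append (u v : OWord) : forget (u ++ v) = forget u ++ forget v := by
  simp [forget]

theorem part3_eq : part3 = .birth 0 :: forget midL := by decide +kernel

theorem value_mid {M : Type} [AddCommGroup M] [Module Raz M] (Λ : Word → M)
    (hΛ : KauffmanRules Λ) (v : Word) :
    extd Λ (.birth 0 :: (forget midL ++ v)) = polyL • extd Λ (.birth 0 :: v) := by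
  have h1 := sem_final hΛ
  rw [final_cons, sem_one hΛ] at h1
  have h2 := congrFun h1 v
  have e1 : (evalP (expected.headD []) • st (extd Λ) (.birth 0)) v =
      polyZ • extd Λ (.birth 0 :: v) := rfl
  have e2 : (zVar • zVar • zVar • zVar • zVar • ap (extd Λ) part3) v =
      zVar • zVar • zVar • zVar • zVar • extd Λ (.birth 0 :: (forget midL ++ v)) := by
    show zVar • zVar • zVar • zVar • zVar • extd Λ (part3 ++ v) = _
    rw [part3_eq]
    rfl
  rw [e1, e2] at h2
  rw [polyL, mul_smul, h2, smul_smul, smul_smul, smul_smul, smul_smul, smul_smul, zpow5, one_smul]

theorem value_rep {M : Type} [AddCommGroup M] [Module Raz M] (Λ : Word → M)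
    (hΛ : KauffmanRules Λ) (n : ℕ) (v : Word) :
    extd Λ (.birth 0 :: (forget (boundary (repS n)) ++ v)) =
      polyL ^ n • extd Λ (.birth 0 :: v) := by
  induction n with
  | zero =>
    rw [pow_zero, one_smul]
    rfl
  | succ n ih =>
    rw [boundary_rep_succ, forget_append, List.append_assoc, value_mid Λ hΛ, ih, smul_smul,
      pow_succ']

theorem width_forget (p : OPiece) (d e : List Bool) (h : p.below d = some e) :
    p.forget.width d.length = some e.length := by
  cases p with
  | birth i b =>
    simp only [OPiece.below] at h
    split at h
    · rename_i hi
      simp only [Option.some.injEq] at h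
      subst h
      simp only [OPiece.forget, Piece.width, if_pos hi]
      simp
      omega
    · simp at h
  | death i =>
    simp only [OPiece.below] at h
    split at h
    · rename_i x y r hr
      split at h
      · simp only [Option.some.injEq] at h
        subst h
        have hl := congrArg List.length hr
        simp only [List.length_drop, List.length_cons] at hl
        have hi : i + 2 ≤ d.length := by omega
        simp only [OPiece.forget, Piece.width, if_pos hi]
        simp
        omega
      · simp at h
    · simp at h
  | pos i =>
    simp only [OPiece.below] at h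
    split at h
    · rename_i x y r hr
      simp only [Option.some.injEq] at h
      subst h
      have hl := congrArg List.length hr
      simp only [List.length_drop, List.length_cons] at hl
      have hi : i + 2 ≤ d.length := by omega
      simp only [OPiece.forget, Piece.width, if_pos hi]
      simp
      omega
    · simp at h
  | neg i =>
    simp only [OPiece.below] at h
    split at h
    · rename_i x y r hr
      simp only [Option.some.injEq] at h
      subst h
      have hl := congrArg List.length hr
      simp only [List.length_drop, List.length_cons] at hl
      have hi : i + 2 ≤ d.length := by omega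
      simp only [OPiece.forget, Piece.width, if_pos hi]
      simp
      omega
    · simp at h

theorem width_of_below (w : OWord) (d e : List Bool) (h : below w d = some e) :
    width (forget w) d.length = some e.length := by
  induction w generalizing d with
  | nil =>
    simp only [below, Option.some.injEq] at h
    subst h
    rfl
  | cons p w ih =>
    simp only [below] at h
    cases hp : p.below d with
    | none => simp [hp] at h
    | some m =>
      rw [hp] at h
      show (p.forget.width d.length).bind (width (forget w)) = _
      rw [width_forget p d m hp]
      exact ih m h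

theorem closed_LN (n : ℕ) : Closed (forget (LN n)) := width_of_below _ _ _ (oclosed_LN n)

theorem value_LN {M : Type} [AddCommGroup M] [Module Raz M] (Λ : Word → M)
    (hΛ : KauffmanRules Λ) (n : ℕ) : Λ (forget (LN n)) = polyL ^ n • Λ circle := by
  have h := value_rep Λ hΛ n [.death 0]
  have e0 : (.birth 0 :: (forget (boundary (repS n)) ++ [.death 0]) : Word) = forget (LN n) := by
    rw [LN_eq]
    simp [forget, OPiece.forget]
  have e1 : extd Λ (.birth 0 :: (forget (boundary (repS n)) ++ [.death 0])) = Λ (forget (LN n)) := by
    rw [e0, extd, if_pos (closed_LN n)]
  have e2 : extd Λ (.birth 0 :: [.death 0]) = Λ circle := by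
    rw [extd, if_pos (by decide)]; rfl
  rw [← e1, ← e2, h]

/-! ### the exponents -/

theorem isLeast_mul {R : Type} [CommRing R] [NoZeroDivisors R] (f g : LaurentPolynomial R)
    (a b : ℤ) (hf : IsLeast {n | f.coeff n ≠ 0} a) (hg : IsLeast {n | g.coeff n ≠ 0} b) :
    IsLeast {n | (f * g).coeff n ≠ 0} (a + b) := by
  constructor
  · have hu : UniqueAdd f.coeff.support g.coeff.support a b := by
      intro x y hx hy hxy
      have h1 := hf.2 (Finsupp.mem_support_iff.mp hx)
      have h2 := hg.2 (Finsupp.mem_support_iff.mp hy)
      constructor <;> omega
    show (f * g).coeff (a + b) ≠ 0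
    rw [AddMonoidAlgebra.coeff_mul_add_of_uniqueAdd hu]
    exact mul_ne_zero hf.1 hg.1
  · intro n hn
    classical
    have h1 := AddMonoidAlgebra.support_coeff_mul_subset f g (Finsupp.mem_support_iff.mpr hn)
    obtain ⟨x, hx, y, hy, rfl⟩ := Finset.mem_add.mp h1
    have h1 := hf.2 (Finsupp.mem_support_iff.mp hx)
    have h2 := hg.2 (Finsupp.mem_support_iff.mp hy)
    omega

theorem isLeast_one {R : Type} [CommRing R] [Nontrivial R] :
    IsLeast {n | (1 : LaurentPolynomial R).coeff n ≠ 0} 0 := by
  constructor
  · show (1 : LaurentPolynomial R).coeff 0 ≠ 0
    rw [AddMonoidAlgebra.one_def, AddMonoidAlgebra.coeff_single, Finsupp.single_eq_same]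
    exact one_ne_zero
  · intro n hn
    by_contra h
    apply hn
    rw [AddMonoidAlgebra.one_def, AddMonoidAlgebra.coeff_single, Finsupp.single_eq_of_ne (by omega)]

theorem isLeast_pow {R : Type} [CommRing R] [IsDomain R] (f : LaurentPolynomial R)
    (a : ℤ) (hf : IsLeast {n | f.coeff n ≠ 0} a) (k : ℕ) :
    IsLeast {n | (f ^ k).coeff n ≠ 0} (k * a) := by
  induction k with
  | zero => simpa using isLeast_one (R := R)
  | succ k ih =>
    rw [pow_succ]
    have := isLeast_mul _ _ _ _ ih hf
    have e : (k : ℤ) * a + a = ((k + 1 : ℕ) : ℤ) * a := by push_cast; ring
    rwa [e] at this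

theorem normalised_pow (t : ℤ) (p : Raz) (n : ℕ) :
    normalised (t * n) (p ^ n) = normalised t p ^ n := by
  rw [normalised, normalised, mul_pow, aPow, aPow, T_pow]
  congr 2
  ring

theorem isLeast_LN (n : ℕ) :
    IsLeast (exponentsInv (normalised (writhe (LN n)) (polyL ^ n))) (4 * n) := by
  rw [writhe_LN, normalised_pow, exponentsInv, map_pow]
  have h0 := isLeast_L
  rw [writhe_link] at h0
  have := isLeast_pow (invert (normalised 6 polyL)) 4 h0 n
  rwa [mul_comm] at this

end Pool.Agent.Y478.KS
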